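import Pool.Agent.Work.MP_71a505_up.Defs

/-! Block H1F (helper67) -/

namespace Pool.Agent.Work.MP_71a505_up

section
variable {a b c r s t W e h α β γ δ x d g y z xb yb xc : ℝ}

/-- BLOCK H1F -/
theorem H1_formula (R : RD a b c r s t W e h α β γ δ)
    (Q : RQ a b c d g r s t x y z xb yb xc) {L1 L2 L3 T : ℝ} (hL1 : L1 = (h + 3) * e * W)
    (hL2 : L2 = (h + 1 - e) * e * W) (hL3 : L3 = (1 - e - h * e) * W)
    (hT : T = (c - a - b - d) / 2) :
    27 * α * y * xc - 8 * α * y * z + 33 * α * yb - 11 * β * g - 9 * β * y * xb + 9 * γ * x * y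
      = δ * (y * (9 * T * (3 / L1 - 1 / L2 + 1 / L3) + (29 * b - 4 * a + 31 * d + 4 * g) / L1
          + (-11 * b + 2 * a - 11 * d) / L2 + 9 * b / L3) + xb * (22 / L2 - 33 / L1)) := by
  have h0 := R.hh
  have e0 := R.he
  have W0 := R.hW
  have l1 : 0 < L1 := by rw [hL1]; positivity
  have l2 : 0 < L2 := by
    rw [hL2]
    have : 0 < h + 1 - e := by linarith [R.hL2]
    positivity
  have l3 : 0 < L3 := by
    rw [hL3]
    have : 0 < 1 - e - h * e := by linarith [R.hL3]
    positivity
  have ea : α = δ * (r / L1) := by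
    have := R.rα
    rw [← hL1] at this
    field_simp
    linarith
  have eb : β = δ * (s / L2) := by
    have := R.sβ
    rw [← hL2] at this
    field_simp
    linarith
  have ec : γ = δ * (t / L3) := by
    have := R.tγ
    rw [← hL3] at this
    field_simp
    linarith
  have hr2 := R.r2
  have hT' : T = a * b * d + r * x * xb := by
    rw [hT, Q.ec]; ring
  have f1 : r * xc = T + d := by
    rw [hT', Q.exc]; linear_combination (-d) * hr2
  have f2 : s * xb = T + a := by
    rw [hT', Q.es]; linear_combination (-a) * Q.xb2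
  have f3 : t * x = T + b := by
    rw [hT', Q.et]; linear_combination (-b) * Q.x2
  have hb := Q.eb
  have hr := Q.er
  have hxb := Q.exb
  have hyb := Q.eyb
  have f4 : r * z = (a + b - d - g) / 2 := by
    rw [hr, hb]; linear_combination (-a) * Q.z2
  have f5 : r * yb = b * y - xb := by
    rw [hr, hyb, hb, hxb]
    linear_combination (-(a * y)) * Q.z2 - g * y * Q.x2 + x * z * Q.y2
  have f6 : s * g = y * (b - a + d) - 2 * xb := by
    have hs : s = r * x + a * xb := Q.es
    rw [hs, hr, hb, hxb]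
    linear_combination (-(g * y)) * Q.x2 + 2 * x * z * Q.y2
  have g1 : r * (27 * y * xc - 8 * y * z + 33 * yb) =
      y * (27 * T + 29 * b - 4 * a + 31 * d + 4 * g) - 33 * xb := by
    linear_combination 27 * y * f1 - 8 * y * f4 + 33 * f5
  have g2 : s * (11 * g + 9 * y * xb) = y * (9 * T + 11 * b - 2 * a + 11 * d) - 22 * xb := by
    linear_combination 11 * f6 + 9 * y * f2
  have g3 : 9 * x * y * t = y * (9 * T + 9 * b) := by
    linear_combination 9 * y * f3
  rw [ea, eb, ec]
  have e1 : 27 * (δ * (r / L1)) * y * xc - 8 * (δ * (r / L1)) * y * z + 33 * (δ * (r / L1)) * yb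
      - 11 * (δ * (s / L2)) * g - 9 * (δ * (s / L2)) * y * xb + 9 * (δ * (t / L3)) * x * y =
      δ * (r * (27 * y * xc - 8 * y * z + 33 * yb) / L1 - s * (11 * g + 9 * y * xb) / L2
        + 9 * x * y * t / L3) := by ring
  rw [e1, g1, g2, g3]
  ring

end

end Pool.Agent.Work.MP_71a505_up
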