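import Pool.Agent.Work.MP_71a505_up.Defs

/-! Block FB (helper67) -/

namespace Pool.Agent.Work.MP_71a505_up

section
variable {a b c r s t W e h α β γ δ x d g y z xb yb xc : ℝ}

/-- BLOCK FB : `f = 2 (w - t) + a x - M ≥ 1` gives `b⁵ < 2 a⁸ c³`. -/
theorem f_bound
    (hz1 : e ^ 3 * b < a ∧ 3 * a ≤ 8 * (e ^ 3 * b) ∧ W ^ 2 ≤ b * c ∧ b * c ≤ 4 * W ^ 2 ∧
      h * c ≤ b ∧ 50 ≤ b ∧ W < t ∧ 47 * c ≤ 48 * (c - a))
    (R : RD a b c r s t W e h α β γ δ) (I : II a b c r s t W e α β γ δ)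
    (X : RX a b c r s t x d) : b ^ 5 < 2 * (a ^ 8 * c ^ 3) := by
  obtain ⟨-, z2, -, -, -, z6, z7, z8⟩ := hz1
  have e0 := R.he
  have e1 := R.he1
  have W0 := R.hW
  have t0 := R.ht
  have r0 := R.hr
  have a1 := R.ha
  have a0 : 0 < a := by linarith
  have b0 : 0 < b := by linarith
  have hc := R.hc
  have c0 : 0 < c := by linarith [mul_pos a0 b0]
  have hbc : 4 * b ≤ c := by linarith [le_mul_of_one_le_left b0.le a1]
  have x0 := X.x0
  -- the integer f
  set f : ℝ := 2 * (W + e * W - t) + a * x - e ^ 2 * W with hf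
  have iff : IsI f := by
    refine IsI.sub (IsI.add (IsI.mul (by simpa using IsI.int 2) ?_) (I.ia.mul X.ix)) I.iM
    exact (I.iW.add I.iU).sub I.it
  -- the difference ω
  obtain ⟨om, hom⟩ : ∃ om : ℝ, om = (1 + e) * W - t := ⟨_, rfl⟩
  have hU : r ^ 2 < (e * W) ^ 2 := by
    have := R.rU
    exact pow_lt_pow_left₀ this r0.le (by norm_num)
  have ht2 : t ^ 2 - r ^ 2 = W ^ 2 * (1 + 2 * e) := by
    linear_combination R.bca - R.t2 + R.r2
  have hs2 : s ^ 2 - r ^ 2 = W ^ 2 * (e ^ 3 * (2 + e)) := by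
    linear_combination R.acb - R.s2 + R.r2
  have hwt : om * ((1 + e) * W + t) = (e * W) ^ 2 - r ^ 2 := by
    rw [hom]; linear_combination -ht2
  have wt0 : 0 < (1 + e) * W + t := by positivity
  have om0 : 0 < om := by
    have : 0 < om * ((1 + e) * W + t) := by rw [hwt]; linarith
    exact (pos_iff_pos_of_mul_pos this).2 wt0
  have eW0 : 0 < e * W := by positivity
  have omM : 2 * om < e ^ 2 * W := by
    have h1 : om * (2 * W) < om * ((1 + e) * W + t) := by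
      apply mul_lt_mul_of_pos_left _ om0
      linarith [mul_pos e0 W0]
    have h2 : om * (2 * W) < (e ^ 2 * W) * W := by
      have : 0 < r ^ 2 := by positivity
      linarith [h1, hwt]
    have h3 : (2 * om) * W < (e ^ 2 * W) * W := by linarith
    exact lt_of_mul_lt_mul_right h3 W0.le
  have hft : 2 * t * f = (e ^ 2 * W) ^ 2 + 2 * (e ^ 2 * W) * om - 2 * om ^ 2 - 1 - a ^ 2 - x ^ 2 := by
    have ht : t = (1 + e) * W - om := by rw [hom]; ring
    have h1 := X.axt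
    have h2 : 2 * t * f = 4 * t * ((1 + e) * W - t) + (s ^ 2 + r ^ 2 - x ^ 2 - 1 - a ^ 2)
        - 2 * t * (e ^ 2 * W) := by
      rw [hf]; linear_combination h1
    rw [h2]
    rw [ht] at hwt ht2 ⊢
    linear_combination hs2 - 2 * ht2
  -- f is positive
  have acb := R.acb
  have hM : e * a * c ≤ 4 * (e ^ 2 * W) ^ 2 := by
    have h1 : 3 * (a * c) ≤ 4 * (a * (c - b)) := by
      linarith [mul_le_mul_of_nonneg_left hbc a0.le]
    have h2 : a * (c - b) ≤ 3 * (W ^ 2 * e ^ 3) := by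
      rw [acb]
      have : 0 < W ^ 2 * e ^ 3 := by positivity
      linarith [mul_le_mul_of_nonneg_left e1.le this.le]
    have h3 : a * c ≤ 4 * (W ^ 2 * e ^ 3) := by linarith
    have h4 : e * (a * c) ≤ e * (4 * (W ^ 2 * e ^ 3)) := mul_le_mul_of_nonneg_left h3 e0.le
    linarith [h4]
  have heb : 97 / 10 ≤ e * b := by
    by_contra hlt
    rw [not_le] at hlt
    have h1 : (e * b) ^ 3 < (97 / 10) ^ 3 := pow_lt_pow_left₀ hlt (by positivity) (by norm_num)
    have h2 : 3 * a * b ^ 2 ≤ 8 * (e * b) ^ 3 := by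
      have h5 := mul_le_mul_of_nonneg_right z2 (sq_nonneg b)
      have h6 : 8 * (e ^ 3 * b) * b ^ 2 = 8 * (e * b) ^ 3 := by ring
      rw [← h6]
      exact h5
    have h3 : (2500 : ℝ) ≤ b ^ 2 := by
      linarith [mul_self_le_mul_self (by norm_num : (0 : ℝ) ≤ 50) z6]
    have h4 : 3 * 1 * 2500 ≤ 3 * a * b ^ 2 := by
      apply mul_le_mul _ h3 (by norm_num) (by linarith)
      linarith
    norm_num at h1 h4
    linarith
  have hacb : 97 / 10 * (a * c) ≤ 4 * (e ^ 2 * W) ^ 2 * b := by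
    have h1 : e * a * c * b ≤ 4 * (e ^ 2 * W) ^ 2 * b := mul_le_mul_of_nonneg_right hM b0.le
    have h2 : 97 / 10 * (a * c) ≤ (e * b) * (a * c) :=
      mul_le_mul_of_nonneg_right heb (mul_pos a0 c0).le
    have h3 : (e * b) * (a * c) = e * a * c * b := by ring
    linarith
  have hxb : 4 * b * x ^ 2 ≤ c + 4 * b := by
    have h1 := X.x2
    have h2 := X.dc
    rw [← h1]
    linarith
  have hab : 4 * b * a ^ 2 ≤ a * c := by linarith [mul_le_mul_of_nonneg_left hc.le a0.le]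
  have f0 : (e ^ 2 * W) ^ 2 > 1 + a ^ 2 + x ^ 2 := by
    have h1 : 4 * b * (1 + a ^ 2 + x ^ 2) < 4 * b * (e ^ 2 * W) ^ 2 := by
      have h2 : c ≤ a * c := le_mul_of_one_le_left c0.le a1
      linarith [hacb, hab, hxb, h2, hbc, mul_pos a0 c0]
    exact lt_of_mul_lt_mul_left h1 (by positivity)
  have hpos : 0 < 2 * (e ^ 2 * W) * om - 2 * om ^ 2 := by
    have : 0 < e ^ 2 * W - om := by linarith
    linarith [mul_pos om0 this]
  have fp : 0 < f := by
    have h1 : 0 < 2 * t * f := by rw [hft]; linarith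
    have h2 : 0 < 2 * t := by linarith
    exact (pos_iff_pos_of_mul_pos h1).1 h2
  have f1 : 1 ≤ f := iff.one_le fp
  have htM : t < (e ^ 2 * W) ^ 2 := by
    have h1 : 2 * t ≤ 2 * t * f := le_mul_of_one_le_right (by linarith) f1
    have h2 : 2 * (e ^ 2 * W) * om < (e ^ 2 * W) ^ 2 := by
      have : 0 < e ^ 2 * W := by positivity
      linarith [mul_lt_mul_of_pos_left omM this]
    linarith [sq_nonneg om, sq_nonneg a, sq_nonneg x, hft, h1, h2]
  have heW : 1 < e ^ 4 * W := by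
    have h1 : 1 * W < (e ^ 4 * W) * W := by linarith
    exact lt_of_mul_lt_mul_right h1 W0.le
  -- the conclusion
  have u1 : 16 * W ^ 5 ≤ (a * (c - b)) ^ 4 := by
    rw [acb]
    have h1 : 1 ≤ (e ^ 4 * W) ^ 3 := one_le_pow₀ heW.le
    have h2 : (16 : ℝ) ≤ (2 + e) ^ 4 := by
      have : (2 : ℝ) ^ 4 ≤ (2 + e) ^ 4 := pow_le_pow_left₀ (by norm_num) (by linarith) 4
      norm_num at this
      exact this
    calc 16 * W ^ 5 = 16 * (W ^ 5 * 1) := by ring
      _ ≤ (2 + e) ^ 4 * (W ^ 5 * (e ^ 4 * W) ^ 3) :=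
          mul_le_mul h2 (mul_le_mul_of_nonneg_left h1 (by positivity)) (by positivity)
            (by positivity)
      _ = (W ^ 2 * (e ^ 3 * (2 + e))) ^ 4 := by ring
  have u2 : b * (c - a) ≤ 3 * W ^ 2 := by
    rw [R.bca]; linarith [mul_le_mul_of_nonneg_left e1.le (sq_nonneg W)]
  have hca : 0 < c - a := by
    linarith [le_mul_of_one_le_right a0.le (by linarith : (1 : ℝ) ≤ b), mul_pos a0 b0]
  have u3 : (b * (c - a)) ^ 5 ≤ 243 * W ^ 10 := by
    calc (b * (c - a)) ^ 5 ≤ (3 * W ^ 2) ^ 5 := pow_le_pow_left₀ (by positivity) u2 5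
      _ = 243 * W ^ 10 := by ring
  have hcb : 0 < c - b := by linarith
  have u4 : 256 * W ^ 10 ≤ (a * c) ^ 8 := by
    calc 256 * W ^ 10 = (16 * W ^ 5) ^ 2 := by ring
      _ ≤ ((a * (c - b)) ^ 4) ^ 2 := pow_le_pow_left₀ (by positivity) u1 2
      _ = (a * (c - b)) ^ 8 := by ring
      _ ≤ (a * c) ^ 8 := pow_le_pow_left₀ (by positivity)
          (mul_le_mul_of_nonneg_left (by linarith) a0.le) 8
  have u5 : (47 * (b * c)) ^ 5 ≤ (48 * (b * (c - a))) ^ 5 := by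
    apply pow_le_pow_left₀ (by positivity)
    linarith [mul_le_mul_of_nonneg_left z8 b0.le]
  have u6 : 47 ^ 5 * (b ^ 5 * c ^ 5) * 256 ≤ 48 ^ 5 * 243 * (a ^ 8 * c ^ 8) := by
    calc 47 ^ 5 * (b ^ 5 * c ^ 5) * 256 = (47 * (b * c)) ^ 5 * 256 := by ring
      _ ≤ (48 * (b * (c - a))) ^ 5 * 256 := mul_le_mul_of_nonneg_right u5 (by norm_num)
      _ = 48 ^ 5 * (b * (c - a)) ^ 5 * 256 := by ring
      _ ≤ 48 ^ 5 * (243 * W ^ 10) * 256 := by
          have := mul_le_mul_of_nonneg_left u3 (by norm_num : (0 : ℝ) ≤ 48 ^ 5 * 256)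
          linarith
      _ = 48 ^ 5 * 243 * (256 * W ^ 10) := by ring
      _ ≤ 48 ^ 5 * 243 * (a * c) ^ 8 := mul_le_mul_of_nonneg_left u4 (by norm_num)
      _ = 48 ^ 5 * 243 * (a ^ 8 * c ^ 8) := by ring
  have c5 : 0 < c ^ 5 := by positivity
  have u7 : b ^ 5 * c ^ 5 < (2 * (a ^ 8 * c ^ 3)) * c ^ 5 := by
    have : (2 * (a ^ 8 * c ^ 3)) * c ^ 5 = 2 * (a ^ 8 * c ^ 8) := by ring
    rw [this]
    have h1 : 0 < a ^ 8 * c ^ 8 := by positivity
    norm_num at u6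
    linarith
  exact lt_of_mul_lt_mul_right u7 c5.le

end

end Pool.Agent.Work.MP_71a505_up
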