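import Pool.Agent.Work.MP_71a505_up.Defs

/-! Block G1 (helper67) -/

namespace Pool.Agent.Work.MP_71a505_up

section
variable {a b c r s t W e h α β γ δ x d g y z xb yb xc : ℝ}

/-- BLOCK G1 : exclusion of the families `c₂^±`. -/
theorem G1_excl (R : RD a b c r s t W e h α β γ δ) (I : II a b c r s t W e α β γ δ)
    (X : RX a b c r s t x d) (hx : (x - r) ^ 2 = a ^ 2)
    (hG : -(5 / 2) * e ≤ h * s * qS e h / ((h + 1 - e) * (1 - e - h * e))
        - (x / r) * ((h + 3) * e / (1 - e - h * e)) - 4 / 9 ∧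
      h * s * qS e h / ((h + 1 - e) * (1 - e - h * e))
        - (x / r) * ((h + 3) * e / (1 - e - h * e)) - 4 / 9 < 0 ∧
      45 * (h * e ^ 2 * W) < 1) : False := by
  have h0 := R.hh
  have e0 := R.he
  have W0 := R.hW
  have r0 := R.hr
  have t0 := R.ht
  have δ0 := R.hδ
  have α0 := R.hα
  have l2 : 0 < h + 1 - e := by linarith [R.hL2]
  have l3 : 0 < 1 - e - h * e := by linarith [R.hL3]
  obtain ⟨hG1, hG2, hG3⟩ := hG
  set G : ℝ := h * s * qS e h / ((h + 1 - e) * (1 - e - h * e))
        - (x / r) * ((h + 3) * e / (1 - e - h * e)) - 4 / 9 with hGdef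
  set N : ℝ := 18 * (a * (α * γ)) - 72 * (r * (α * β)) - 8 * α ^ 2
    + 27 * (α * β * γ / δ * (α * γ) - α * β * (α * δ)) with hN
  have iN : IsI N := by
    refine IsI.add (IsI.sub (IsI.sub ?_ ?_) ?_) ?_
    · exact IsI.mul (by simpa using IsI.int 18) (I.ia.mul I.iAC)
    · exact IsI.mul (by simpa using IsI.int 72) (I.ir.mul I.iAB)
    · exact IsI.mul (by simpa using IsI.int 8) I.iA
    · exact IsI.mul (by simpa using IsI.int 27) ((I.iK.mul I.iAC).sub (I.iAB.mul I.iAD))
  have eα : α * ((h + 3) * e * W) = r * δ := R.rα.symm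
  have m2 : (h + 1 - e) * e * W ≠ 0 := (mul_pos (mul_pos l2 e0) W0).ne'
  have m3 : (1 - e - h * e) * W ≠ 0 := (mul_pos l3 W0).ne'
  have eβ : β = s * δ / ((h + 1 - e) * e * W) := by
    rw [eq_div_iff m2]
    exact R.sβ.symm
  have eγ : γ = t * δ / ((1 - e - h * e) * W) := by
    rw [eq_div_iff m3]
    exact R.tγ.symm
  have key : N = 18 * α ^ 2 * G := by
    have p1 : a * (α * γ) = (r * s - x) * (α * δ) / ((1 - e - h * e) * W) := by
      have hat : a * t = r * s - x := by linarith [X.xe]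
      rw [eγ, ← hat]
      ring
    have p2 : r * (α * β) = α ^ 2 * (h + 3) * s / (h + 1 - e) := by
      have n2 : h + 1 - e ≠ 0 := l2.ne'
      rw [eq_div_iff n2]
      have e3 : β * ((h + 1 - e) * (e * W)) = s * δ := by
        have := R.sβ
        linear_combination -this
      have e4 : e * W ≠ 0 := (mul_pos e0 W0).ne'
      apply mul_right_cancel₀ e4
      linear_combination (r * α) * e3 - (s * α) * eα
    have p3 : α * β * γ / δ * (α * γ) - α * β * (α * δ) =
        α ^ 2 * (s / ((h + 1 - e) * e * W)) * (γ ^ 2 - δ ^ 2) := by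
      rw [eβ]
      field_simp
    have p5 : α * δ = α ^ 2 * ((h + 3) * e * W) / r := by
      field_simp
      linear_combination (-1) * eα
    have p6 : r * (α * δ) = α ^ 2 * ((h + 3) * e * W) := by
      linear_combination (-α) * eα
    have p7 : a * (α * γ) = (s * (α ^ 2 * ((h + 3) * e * W)) -
        x * (α ^ 2 * ((h + 3) * e * W) / r)) / ((1 - e - h * e) * W) := by
      rw [p1]
      congr 1
      linear_combination s * p6 - x * p5
    rw [hN, p7, p2, p3, R.C2, R.D2, hGdef]
    unfold qS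
    have r1 := r0.ne'
    field_simp
    ring
  have αp : 0 < α ^ 2 := by positivity
  have n1 : N < 0 := by
    rw [key]
    nlinarith
  have n2 : -1 < N := by
    rw [key]
    have : α ^ 2 * (-(5 / 2) * e) ≤ α ^ 2 * G := mul_le_mul_of_nonneg_left hG1 αp.le
    have hA : α ^ 2 = h * e * W := R.A2
    have e2 : α ^ 2 * (-(5 / 2) * e) = -(5 / 2) * (h * e ^ 2 * W) := by rw [hA]; ring
    rw [e2] at this
    nlinarith
  obtain ⟨n, hn⟩ := iN
  rw [← hn] at n1 n2
  have q1 : n < 0 := by exact_mod_cast n1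
  have q2 : -1 < n := by exact_mod_cast n2
  omega

end

end Pool.Agent.Work.MP_71a505_up
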